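import Pool.Agent.V11322.ZF.Weier
import Pool.Agent.TH526.ZL.E
import Pool.Agent.W282.LF.Top

/-!
# MP_dd1803_nt: Zilber-Pink in `Y(1)^n` (case (b)) for the moduli images of Weierstrass families of
elliptic curves over projective sets of any dimension

The Shimura variety `Y(1)^n` is identified with `ℂ^n` by the elliptic modular function
`jj = j = E₄³ / Δ`.

**Setting.** Let `Λ` be a ring with an injection `f : Λ → ℂ`, `Y ⊆ P^N` a projective algebraic set
given by forms `G k` over `Λ`, and for `i = 1, …, n` let `A_i`, `B_i` be forms of degrees `4 e_i`,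
`6 e_i` over `Λ`. For the families of elliptic curves `y² = x³ + A_i x + B_i` over
`S = {b ∈ Y | 4 A_i (b)³ + 27 B_i (b)² ≠ 0 for all i}` let `X ⊆ Y(1)^n` be the set of the vectors of the
invariants `6912 A_i³ / (4 A_i³ + 27 B_i²)` of the curves over the points of `S` (`moduliImage`). Let
`4 A_i³ + 27 B_i² = c_i Δ_i` with `c_i ∈ Λ` and forms `Δ_i`.

**1. Local criterion with `m + 2` places.** Suppose there are `m + 2` good places (`GoodPlace`):
homomorphisms `red` from `Λ` to algebraically closed fields of characteristic different from `2` and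
`3` such that no point of the reduction of `Y` lies on `m + 1` of the sets `A_i Δ_i = 0`, and `c_i` has
the exact order `e_{l i} > 0` at the place (so all the curves become singular), where the `e_{l i}`
are independent on polygons: if `U` is a nonempty set of places and `i_l ≠ j_l`, `l ∈ U`, are such that
every coordinate occurs an even number of times among the `i_l` and the `j_l`, then
`∏_{l ∈ U} e_{l i_l} e_{l j_l}` is not a square (for example different primes). Then `X` has no
atypical intersection with special subvarieties `Z` of `Y(1)^n`: every irreducible constructible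
subset of `X ∩ Z` has dimension at most `dim Z + m - n`, and the same bound holds for the
transcendence degrees of the points of `X ∩ Z` over any countable field containing `Λ`. The constant
coordinates of `Z` can be special points or arbitrary numbers integral over `Λ`.

**2. One-parameter families.** Let everything be defined over `K₀[t]`, `K₀ ⊂ ℂ` a field. If at
`m + 2` numbers `α_l ∈ K₀` the polynomials `c_i` have zeros of orders independent on polygons and no
point of `Y_{α_l}` lies on `m + 1` of the sets `A_i Δ_i = 0`, then `X_τ` has no atypical intersection,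
for all `τ` transcendental over `K₀`.

**3. Almost all members of arithmetic families.** Let `Y` and forms `a_i`, `b_i` of degrees `2 e_i`,
`6 e_i` be defined over a countable field `K ⊂ ℂ`, and suppose that no point of `Y` lies on `m + 1` of
the sets `a_i b_i = 0`. For a vector `c` of positive integers regard the families
`y² = x³ - 3 a_i² x + 2 a_i³ + c_i b_i` and their moduli image `X_c`. There is `D` such that `X_c` has no
atypical intersection for all `c` for which there are `m + 2` primes `p_l > D` with exponents in the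
`c_i` which are positive and independent on polygons; if the exponents `a'_{l i}` are positive and
independent on polygons, this is so for `c_i = ∏_{l < m + 2} (k + l) ^ a'_{l i}` and all `k ≤ H` up to a
power of `log H` exceptions. Here the constant coordinates of `Z` can be special points, isogenous to
an element of a given finite set `Γ ⊂ K`, or integral over `ℤ[Γ]`.
-/

namespace Pool.Agent.Results.MP_dd1803_nt.WeierstrassFamilies

open H294ZP UpperHalfPlane MvPolynomial Pool.Agent.W282.ZP Pool.Agent.W282.LF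

/-- A special subvariety of `Y(1)^n = ℂ^n` of dimension `r` (with more constants allowed): a map
`cls` from the coordinates onto `r` classes (`none` for constant coordinates), an integral matrix
of positive determinant for every coordinate, and a constant with `Ok` for every coordinate. -/
structure SpecialVariety (Ok : ℂ → Prop) (n r : ℕ) where
  cls : Fin n → Option (Fin r)
  surj : ∀ l : Fin r, ∃ i, cls i = some l
  mat : Fin n → Matrix (Fin 2) (Fin 2) ℤ
  det_pos : ∀ i, 0 < (mat i).det
  const : Fin n → ℂ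
  allowed : ∀ i, Ok (const i)

/-- The points of the special subvariety: the constant coordinates are the given constants, and the
coordinates of class `l` are `j (g_i z_l)`, with a free parameter `z_l` in the upper half plane. -/
def SpecialVariety.locus {Ok : ℂ → Prop} {n r : ℕ} (Z : SpecialVariety Ok n r) :
    Set (Fin n → ℂ) :=
  {x | ∃ z : Fin r → ℍ, ∀ i, (Z.cls i = none → x i = Z.const i) ∧
    ∀ l, Z.cls i = some l → ∃ w : ℍ,
      (w : ℂ) * (Z.mat i 1 0 * z l + Z.mat i 1 1) = Z.mat i 0 0 * z l + Z.mat i 0 1 ∧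
      x i = jj w}

/-- The constants which are special points or integral over `Λ`. -/
def SpecialOrIntegral {Λ : Type} [CommRing Λ] (f : Λ →+* ℂ) (x : ℂ) : Prop :=
  (∃ τ : ℍ, IsCM τ ∧ x = jj τ) ∨ f.IsIntegralElem x

/-- `y` is a vector of homogeneous coordinates, in a field `F` to which `Λ` is mapped by `f`, of a
point of the projective algebraic set `Y` defined by the forms `G k`. -/
def OnB {Λ : Type} [CommRing Λ] {F : Type} [Field F] (f : Λ →+* F) {N : ℕ} {κ : Type}
    (G : κ → MvPolynomial (Fin (N + 1)) Λ) (y : Fin (N + 1) → F) : Prop :=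
  y ≠ 0 ∧ ∀ k, eval₂ f y (G k) = 0

/-- No point of the projective algebraic set over `F` lies on `m + 1` of the sets `A_i B_i = 0`. -/
def InGeneralPosition {Λ : Type} [CommRing Λ] {F : Type} [Field F] (f : Λ →+* F) {N n : ℕ}
    {κ : Type} (m : ℕ) (G : κ → MvPolynomial (Fin (N + 1)) Λ)
    (A B : Fin n → MvPolynomial (Fin (N + 1)) Λ) : Prop :=
  ∀ I : Finset (Fin n), I.card = m + 1 → ∀ y : Fin (N + 1) → F, OnB f G y →
    ∃ i ∈ I, eval₂ f y (A i) * eval₂ f y (B i) ≠ 0

/-- The moduli image `X`: the vectors of the invariants `1728 · 4 A_i³ / (4 A_i³ + 27 B_i²)` of the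
curves `y² = x³ + A_i x + B_i` over the points of `Y` at which no discriminant vanishes. -/
def moduliImage {Λ : Type} [CommRing Λ] (f : Λ →+* ℂ) {N n : ℕ} {κ : Type}
    (G : κ → MvPolynomial (Fin (N + 1)) Λ) (A B : Fin n → MvPolynomial (Fin (N + 1)) Λ) :
    Set (Fin n → ℂ) :=
  {x | ∃ b, OnB f G b ∧ ∀ i,
    4 * eval₂ f b (A i) ^ 3 + 27 * eval₂ f b (B i) ^ 2 ≠ 0 ∧
    x i = 6912 * eval₂ f b (A i) ^ 3 / (4 * eval₂ f b (A i) ^ 3 + 27 * eval₂ f b (B i) ^ 2)}

/-- `X` has no intersection of dimension larger than `r + m - n` with special subvarieties `Z` of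
dimension `r`, whose constant coordinates satisfy `Ok`: every point of `X ∩ Z` has transcendence
degree at most `r + m - n` over `K`, and every irreducible closed set `W`, such that its points
outside of some hypersurface `h = 0`, which does not contain `W`, are in `X ∩ Z`, has dimension at
most `r + m - n`. -/
def NoAtypical (Ok : ℂ → Prop) (K : Subfield ℂ) {n : ℕ} (m : ℕ) (X : Set (Fin n → ℂ)) : Prop :=
  ∀ (r : ℕ) (Z : SpecialVariety Ok n r),
    (∀ x ∈ X ∩ Z.locus, ∀ S : Finset (Fin n), AlgebraicIndependent K (fun i : S => x i) →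
      S.card + n ≤ r + m) ∧
    ∀ (W : Set (Fin n → ℂ)) (h : MvPolynomial (Fin n) ℂ),
      (∀ w ∈ W, eval w h ≠ 0 → w ∈ X ∩ Z.locus) → zcl W ⊆ W → (idealOf W).IsPrime →
      h ∉ idealOf W → zdim W + (n : Cardinal) ≤ (r : Cardinal) + (m : Cardinal)

/-- The exponents are positive and independent on polygons: if `U` is a nonempty set of places and
`i l ≠ j l` are coordinates for the places `l` in `U`, such that every coordinate `v` occurs an even
number of times among them, then the product of the `e l (i l) * e l (j l)` over `U` is not a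
square. -/
def IndependentExponents {n L : ℕ} (e : Fin L → Fin n → ℕ) : Prop :=
  (∀ l i, 0 < e l i) ∧
  ∀ U : Finset (Fin L), U.Nonempty → ∀ i j : Fin L → Fin n, (∀ l ∈ U, i l ≠ j l) →
    (∀ v, Even ((U.filter fun l => i l = v).card + (U.filter fun l => j l = v).card)) →
    ¬ IsSquare (∏ l ∈ U, e l (i l) * e l (j l))

/-- A good place of the data: a homomorphism `red` to an algebraically closed field `F` of
characteristic different from `2` and `3`, over which no point of `Y` lies on `m + 1` of the sets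
`A_i Δ_i = 0`, such that `c i` has the exact order `e i` at the place, `a (c i) = b ϖ ^ (e i)` with
`red ϖ = 0` and `a`, `b` invertible at the place. -/
structure GoodPlace {Λ : Type} [CommRing Λ] {N n : ℕ} {κ : Type} (m : ℕ)
    (G : κ → MvPolynomial (Fin (N + 1)) Λ) (A Δ : Fin n → MvPolynomial (Fin (N + 1)) Λ)
    (c : Fin n → Λ) (e : Fin n → ℕ) where
  F : Type
  [field : Field F]
  [closed : IsAlgClosed F]
  char : (6 : F) ≠ 0
  red : Λ →+* F
  general : InGeneralPosition red m G A Δ
  ϖ : Λ
  red_ϖ : red ϖ = 0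
  order : ∀ i, ∃ a b : Λ, red a ≠ 0 ∧ red b ≠ 0 ∧ a * c i = b * ϖ ^ e i

theorem IndependentExponents.cyc {n L : ℕ} {e : Fin L → Fin n → ℕ} (h : IndependentExponents e) :
    V11322.ZF.Cyc (1 ^ 4) e := by
  intro U hU i j t ht hev hsq
  refine h.2 U hU i j (fun l hl => (ht l hl).1) hev ?_
  have h1 : ∏ l ∈ U, t l * (e l (i l) * e l (j l)) = ∏ l ∈ U, e l (i l) * e l (j l) := by
    refine Finset.prod_congr rfl fun l hl => ?_
    obtain ⟨-, h2, h3⟩ := ht l hl
    rw [one_pow] at h3
    have h4 : t l = 1 := by omega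
    rw [h4, one_mul]
  rwa [h1] at hsq

/-- From points to irreducible closed subsets. -/
theorem noAtypical_of (Ok : ℂ → Prop) (K : Subfield ℂ) [Countable K] {n m : ℕ}
    (X : Set (Fin n → ℂ)) (h : ∀ (r : ℕ) (Z : SpecialVariety Ok n r), ∀ x ∈ X,
      (∀ i, Z.cls i = none → x i = Z.const i) → (∀ i, 0 < (Z.mat i).det.toNat) →
      (∀ i j l, Z.cls i = some l → Z.cls j = some l →
          IsIntegral (Algebra.adjoin ℤ {x i}) (x j) ∧
          Polynomial.eval₂ (Polynomial.aeval (x i) : Polynomial ℂ →ₐ[ℂ] ℂ).toRingHom (x j)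
            (Psi ((Z.mat i).det.toNat * (Z.mat j).det.toNat)) = 0) →
      ∀ S : Finset (Fin n), AlgebraicIndependent K (fun i : S => x i) → S.card + n ≤ r + m) :
    NoAtypical Ok K m X := by
  intro r Z
  have hN : ∀ i, 0 < (Z.mat i).det.toNat := by
    intro i
    have := Z.det_pos i
    omega
  have hpt : ∀ x ∈ X ∩ Z.locus, ∀ S : Finset (Fin n),
      AlgebraicIndependent K (fun i : S => x i) → S.card + n ≤ r + m := by
    rintro x ⟨hx, z, hz⟩ S hS
    refine h r Z x hx (fun i => (hz i).1) hN ?_ S hS
    intro i j l hi hj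
    obtain ⟨w, hw, hxw⟩ := (hz i).2 l hi
    obtain ⟨w', hw', hxw'⟩ := (hz j).2 l hj
    refine ⟨?_, ?_⟩
    · obtain ⟨a, b, c, d, e1, e2⟩ := isogeny_rel (Z.det_pos i) hw hw'
      rw [hxw, hxw']
      exact isogenous_integral w w' a b c d (by
        rw [e1]
        exact mul_pos (Z.det_pos i) (Z.det_pos j)) e2
    · rw [← Int.toNat_mul (Z.det_pos i).le (Z.det_pos j).le, ← eval_relPoly]
      exact eval_relPoly_eq_zero (Z.det_pos i) (Z.det_pos j) hw hw' hxw hxw'
  refine ⟨hpt, ?_⟩
  intro W g hW hcl hprime hg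
  obtain ⟨x, hxW, hgx, T, hT, hdim⟩ := generic_dim_open K W hprime hcl g hg
  have h2 := hpt x (hW x hxW hgx) T hT
  calc zdim W + (n : Cardinal) ≤ (T.card : Cardinal) + (n : Cardinal) := by gcongr
    _ = ((T.card + n : ℕ) : Cardinal) := by push_cast; rfl
    _ ≤ ((r + m : ℕ) : Cardinal) := by exact_mod_cast h2
    _ = (r : Cardinal) + (m : Cardinal) := by push_cast; rfl

/-- The level one equation `S - J`. -/
theorem lvl {Λ : Type} [CommRing Λ] (u w : ℕ)
    (h0 : ((Polynomial.X - Polynomial.C Polynomial.X : Polynomial (Polynomial Λ)).coeff u).coeff w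
      ≠ 0) : (u ≤ 1 ∧ w ≤ 1) ∧
        (((Polynomial.X - Polynomial.C Polynomial.X : Polynomial (Polynomial Λ)).coeff u).coeff w
          = 1 ∨
        ((Polynomial.X - Polynomial.C Polynomial.X : Polynomial (Polynomial Λ)).coeff u).coeff w
          = -1) := by
  rw [Polynomial.coeff_sub, Polynomial.coeff_X, Polynomial.coeff_C] at h0 ⊢
  by_cases h1 : u = 1
  · subst h1
    rw [if_pos rfl, if_neg one_ne_zero, sub_zero, Polynomial.coeff_one] at h0 ⊢
    by_cases h2 : w = 0
    · exact ⟨⟨le_refl _, by omega⟩, Or.inl (if_pos h2)⟩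
    · rw [if_neg h2] at h0
      exact (h0 rfl).elim
  · rw [if_neg (Ne.symm h1), zero_sub] at h0 ⊢
    by_cases h2 : u = 0
    · rw [if_pos h2, Polynomial.coeff_neg, Polynomial.coeff_X] at h0 ⊢
      by_cases h3 : w = 1
      · refine ⟨⟨by omega, by omega⟩, Or.inr ?_⟩
        rw [if_pos h3.symm]
      · rw [if_neg (Ne.symm h3)] at h0
        exact (h0 neg_zero).elim
    · rw [if_neg h2, neg_zero, Polynomial.coeff_zero] at h0
      exact (h0 rfl).elim

theorem main {Λ : Type} [CommRing Λ] (f : Λ →+* ℂ) (hf : Function.Injective f) (K : Subfield ℂ)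
    [Countable K] (hK : ∀ a, f a ∈ K) {κ : Type} {N n m : ℕ}
    (G : κ → MvPolynomial (Fin (N + 1)) Λ) (hG : ∀ k, ∃ e, (G k).IsHomogeneous e)
    (A B Δ : Fin n → MvPolynomial (Fin (N + 1)) Λ) (d : Fin n → ℕ)
    (hA : ∀ i, (A i).IsHomogeneous (4 * d i)) (hΔ : ∀ i, (Δ i).IsHomogeneous (12 * d i))
    (c : Fin n → Λ) (hdisc : ∀ i, 4 * A i ^ 3 + 27 * B i ^ 2 = C (c i) * Δ i)
    (e : Fin (m + 2) → Fin n → ℕ) (he : IndependentExponents e)
    (P : ∀ l, GoodPlace m G A Δ c (e l)) :
    NoAtypical (SpecialOrIntegral f) K m (moduliImage f G A B) := by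
  classical
  have hdom : IsDomain Λ := hf.isDomain f
  let _ : Algebra Λ ℂ := f.toAlgebra
  let fK : Λ →+* K := f.codRestrict K hK
  let _ : Algebra Λ K := fK.toAlgebra
  have hst : IsScalarTower Λ K ℂ := IsScalarTower.of_algebraMap_eq fun _ => rfl
  have hfK : Function.Injective (algebraMap Λ K) := fun a b h => hf (congrArg Subtype.val h)
  refine noAtypical_of _ K _ ?_
  rintro r Z x ⟨y, hy, hx⟩ hconst hN hrel S hS
  let inst : ∀ l, Field (P l).F := fun l => (P l).field
  have h6912 : ∀ l, (P l).red 6912 ≠ 0 := by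
    intro l h
    rw [map_ofNat] at h
    have h6 := (P l).char
    have h2 : (2 : (P l).F) ≠ 0 := by
      intro h2
      apply h6
      have : (6 : (P l).F) = 2 * 3 := by norm_num
      rw [this, h2, zero_mul]
    have h3 : (3 : (P l).F) ≠ 0 := by
      intro h3
      apply h6
      have : (6 : (P l).F) = 2 * 3 := by norm_num
      rw [this, h3, mul_zero]
    have h7 : (6912 : (P l).F) = 2 ^ 8 * 3 ^ 3 := by norm_num
    rw [h7] at h
    exact mul_ne_zero (pow_ne_zero _ h2) (pow_ne_zero _ h3) h
  refine V11322.ZF.criterionF (m := m) G hG (fun i => C (6912 : Λ) * A i ^ 3) Δ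
    (fun i => 12 * d i)
    (fun i => by
      have h1 := (isHomogeneous_C (Fin (N + 1)) (6912 : Λ)).mul ((hA i).pow 3)
      have h2 : 0 + 4 * d i * 3 = 12 * d i := by ring
      rwa [h2] at h1) hΔ
    (fun _ => Polynomial.X - Polynomial.C Polynomial.X) (fun _ => Polynomial.monic_X_sub_C _)
    (T := 1) ?_ c (fun l => RingHom.ker (P l).red)
    (fun l => ?_) ?_ ?_ (fun l => (P l).ϖ) (fun l => ?_) e he.1 ?_ he.cyc Z.cls
    (fun i => (Z.mat i).det.toNat) x x hN ?_ hrel
    (fun i => by simp) y hy.1 hy.2 (fun i => ?_) S (hS.restrictScalars hfK)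
  · intro i u w h0
    exact (lvl u w h0).1
  · exact RingHom.ker_isPrime (P l).red
  · intro l F _ φ hφ I hI y' hy0 hyG
    have := (P l).closed
    by_contra hcon
    push Not at hcon
    apply hy0
    refine TH526.ZL.transfer
      (fun b : κ ⊕ I => Sum.elim (fun k => G k) (fun i : I => A i * Δ i) b) (P l).red ?_ φ hφ y' ?_
    · intro y'' hy''
      by_contra h0
      obtain ⟨i, hi, h1⟩ := (P l).general I hI y'' ⟨h0, fun k => hy'' (Sum.inl k)⟩
      apply h1
      have h2 := hy'' (Sum.inr ⟨i, hi⟩)
      simp only [Sum.elim_inr, eval₂_mul] at h2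
      exact h2
    · rintro (k | i)
      · exact hyG k
      · simp only [Sum.elim_inr, eval₂_mul]
        have h1 := hcon i i.2
        simp only [eval₂_mul, eval₂_pow, eval₂_C] at h1
        have h2 : φ 6912 ≠ 0 := by
          intro h2
          have h3 : (6912 : Λ) ∈ RingHom.ker φ := h2
          rw [hφ] at h3
          exact h6912 l h3
        rcases mul_eq_zero.1 h1 with h3 | h3
        · rcases mul_eq_zero.1 h3 with h4 | h4
          · exact (h2 h4).elim
          · rw [pow_eq_zero_iff (by norm_num)] at h4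
            rw [h4, zero_mul]
        · rw [h3, mul_zero]
  · intro l i u w h0 h1
    rcases (lvl u w h0).2 with h2 | h2
    · rw [h2, RingHom.mem_ker, map_one] at h1
      exact one_ne_zero h1
    · rw [h2, RingHom.mem_ker, map_neg, map_one] at h1
      exact one_ne_zero (neg_eq_zero.1 h1)
  · exact (P l).red_ϖ
  · intro l i
    exact (P l).order i
  · intro i hi
    rw [hconst i hi]
    rcases Z.allowed i with ⟨τ, hτ, hc⟩ | h
    · rw [hc]
      exact (singular_modulus_integral τ hτ).tower_top
    · exact h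
  · obtain ⟨h1, h2⟩ := hx i
    have h3 := congrArg (eval₂ f y) (hdisc i)
    simp only [eval₂_add, eval₂_mul, eval₂_pow, eval₂_C, eval₂_ofNat] at h3
    change f (c i) * eval₂ f y (Δ i) * x i = eval₂ f y (C (6912 : Λ) * A i ^ 3)
    rw [← h3, h2, mul_div_cancel₀ _ h1]
    simp only [eval₂_mul, eval₂_pow, eval₂_C]
    rw [map_ofNat]

/-- Integral scaling vectors. -/
theorem mainScaled (K : Subfield ℂ) [Countable K] {κ : Type} {N n m : ℕ}
    (G : κ → MvPolynomial (Fin (N + 1)) K) (hG : ∀ k, ∃ e, (G k).IsHomogeneous e)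
    (a b : Fin n → MvPolynomial (Fin (N + 1)) K) (d : Fin n → ℕ)
    (ha : ∀ i, (a i).IsHomogeneous (2 * d i)) (hb : ∀ i, (b i).IsHomogeneous (6 * d i))
    (hpos : InGeneralPosition K.subtype m G a b) (Γ : Finset ℂ) (hΓ : ∀ γ ∈ Γ, γ ∈ K) :
    ∃ D : ℕ, ∀ c : Fin n → ℕ, V11322.ZF.SpreadF (m + 2) 1 D c →
      NoAtypical (AllowedConst Γ) K m (moduliImage K.subtype G (fun i => C (-3) * a i ^ 2)
        fun i => C 2 * a i ^ 3 + C ((c i : ℕ) : K) * b i) := by
  classical
  obtain ⟨D, hD⟩ := V11322.ZF.mainWK K (m := m) G hG a b d ha hb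
    (by
      intro I hI y hyG hyI
      by_contra hy0
      obtain ⟨i, hi, h1⟩ := hpos I hI y ⟨hy0, hyG⟩
      apply h1
      exact hyI i hi) Γ hΓ
  refine ⟨D, fun c hc => noAtypical_of _ K _ ?_⟩
  rintro r Z x ⟨y, hy, hx⟩ hconst hN hrel S hS
  refine hD c hc r Z.cls (fun i => (Z.mat i).det.toNat) x hN ?_ hrel y hy.1 hy.2 (fun i => ?_) S hS
  · intro i hi
    rw [hconst i hi]
    exact (Z.allowed i).isIntegral
  · obtain ⟨h1, h2⟩ := hx i
    simp only [eval₂_add, eval₂_mul, eval₂_pow, eval₂_C] at h1 h2
    simp only [map_natCast, map_neg, map_ofNat] at h1 h2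
    change x i * (27 * (c i : ℂ) * eval₂ K.subtype y (b i) * (4 * eval₂ K.subtype y (a i) ^ 3 +
      (c i : ℂ) * eval₂ K.subtype y (b i))) = 6912 * (-27) * eval₂ K.subtype y (a i) ^ 6
    set α := eval₂ K.subtype y (a i)
    set β := eval₂ K.subtype y (b i)
    have h3 : 4 * (-3 * α ^ 2) ^ 3 + 27 * (2 * α ^ 3 + (c i : ℂ) * β) ^ 2 =
        27 * (c i : ℂ) * β * (4 * α ^ 3 + (c i : ℂ) * β) := by ring
    rw [h2, ← h3, div_mul_cancel₀ _ h1]
    ring

/-- the value of a polynomial at a complex number -/
noncomputable def evalAt (K₀ : Subfield ℂ) (z : ℂ) : Polynomial K₀ →+* ℂ :=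
  (Polynomial.aeval z : Polynomial K₀ →ₐ[K₀] ℂ).toRingHom

/-- The first part is the local criterion, the second part the application to the transcendental
members of one-parameter families, the third part is about the families with
`c_i = ∏ (k + l) ^ (a' l i)`; the last part gives examples of independent exponents. -/
theorem result :
    (∀ (Λ : Type) [CommRing Λ] (f : Λ →+* ℂ), Function.Injective f →
      ∀ (K : Subfield ℂ) [Countable K], (∀ a, f a ∈ K) →
      ∀ (κ : Type) (N n m : ℕ) (G : κ → MvPolynomial (Fin (N + 1)) Λ),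
      (∀ k, ∃ e, (G k).IsHomogeneous e) →
      ∀ (A B Δ : Fin n → MvPolynomial (Fin (N + 1)) Λ) (d : Fin n → ℕ),
      (∀ i, (A i).IsHomogeneous (4 * d i)) → (∀ i, (B i).IsHomogeneous (6 * d i)) →
      (∀ i, (Δ i).IsHomogeneous (12 * d i)) → ∀ c : Fin n → Λ,
      (∀ i, 4 * A i ^ 3 + 27 * B i ^ 2 = C (c i) * Δ i) →
      ∀ e : Fin (m + 2) → Fin n → ℕ, IndependentExponents e →
      (∀ l, Nonempty (GoodPlace m G A Δ c (e l))) →
      NoAtypical (SpecialOrIntegral f) K m (moduliImage f G A B)) ∧
    (∀ (K₀ : Subfield ℂ) (κ : Type) (N n m : ℕ)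
      (G : κ → MvPolynomial (Fin (N + 1)) (Polynomial K₀)),
      (∀ k, ∃ e, (G k).IsHomogeneous e) →
      ∀ (A B Δ : Fin n → MvPolynomial (Fin (N + 1)) (Polynomial K₀)) (d : Fin n → ℕ),
      (∀ i, (A i).IsHomogeneous (4 * d i)) → (∀ i, (B i).IsHomogeneous (6 * d i)) →
      (∀ i, (Δ i).IsHomogeneous (12 * d i)) → ∀ c : Fin n → Polynomial K₀,
      (∀ i, 4 * A i ^ 3 + 27 * B i ^ 2 = C (c i) * Δ i) →
      ∀ α : Fin (m + 2) → K₀, IndependentExponents (fun l i => (c i).rootMultiplicity (α l)) →
      (∀ l, InGeneralPosition (evalAt K₀ (α l)) m G A Δ) →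
      ∀ τ : ℂ, Transcendental K₀ τ → ∀ (K : Subfield ℂ) [Countable K], K₀ ≤ K → τ ∈ K →
      NoAtypical (SpecialOrIntegral (evalAt K₀ τ)) K m (moduliImage (evalAt K₀ τ) G A B)) ∧
    (∀ (K : Subfield ℂ) [Countable K] (κ : Type) (N n m : ℕ)
      (G : κ → MvPolynomial (Fin (N + 1)) K), (∀ k, ∃ e, (G k).IsHomogeneous e) →
      ∀ (a b : Fin n → MvPolynomial (Fin (N + 1)) K) (d : Fin n → ℕ),
      (∀ i, (a i).IsHomogeneous (2 * d i)) → (∀ i, (b i).IsHomogeneous (6 * d i)) →
      InGeneralPosition K.subtype m G a b → ∀ Γ : Finset ℂ, (∀ γ ∈ Γ, γ ∈ K) →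
      ∃ D : ℕ,
        (∀ (c : Fin n → ℕ) (p : Fin (m + 2) → ℕ), (∀ l, (p l).Prime ∧ D < p l) →
          IndependentExponents (fun l i => (c i).factorization (p l)) →
          NoAtypical (AllowedConst Γ) K m (moduliImage K.subtype G (fun i => C (-3) * a i ^ 2)
            fun i => C 2 * a i ^ 3 + C ((c i : ℕ) : K) * b i)) ∧
        ∀ a' : Fin (m + 2) → Fin n → ℕ, IndependentExponents a' →
          ∀ H : ℕ, Set.ncard {k : ℕ | 1 ≤ k ∧ k ≤ H ∧
            ¬ NoAtypical (AllowedConst Γ) K m (moduliImage K.subtype G (fun i => C (-3) * a i ^ 2)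
              fun i => C 2 * a i ^ 3 +
                C ((∏ l : Fin (m + 2), (k + (l : ℕ)) ^ a' l i : ℕ) : K) * b i)} ≤
            (m + 2) * (Nat.log 2 (H + (m + 2)) + 1) ^ (D + (m + 2) + 1)) ∧
    ∀ (n L : ℕ) (e : Fin L → Fin n → ℕ), (∀ l i, (e l i).Prime) →
      (∀ l i l' i', e l i = e l' i' → l = l' ∧ i = i') → IndependentExponents e := by
  classical
  refine ⟨?_, ?_, ?_, ?_⟩
  · intro Λ _ f hf K _ hK κ N n m G hG A B Δ d hA _ hΔ c hdisc e he P
    exact main f hf K hK G hG A B Δ d hA hΔ c hdisc e he fun l => (P l).some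
  · intro K₀ κ N n m G hG A B Δ d hA _ hΔ c hdisc α he hpos τ hτ K _ hK₀ hτK
    have hf : Function.Injective (evalAt K₀ τ) := transcendental_iff_injective.1 hτ
    refine main (evalAt K₀ τ) hf K ?_ G hG A B Δ d hA hΔ c hdisc
      (fun l i => (c i).rootMultiplicity (α l)) he fun l => ?_
    · intro a
      show Polynomial.aeval τ a ∈ K
      rw [Polynomial.aeval_eq_sum_range]
      refine sum_mem fun i _ => ?_
      rw [Algebra.smul_def]
      exact mul_mem (hK₀ (a.coeff i).2) (pow_mem hτK i)
    · have hev2 : ∀ p : Polynomial K₀, evalAt K₀ (α l) p = ((p.eval (α l) : K₀) : ℂ) := by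
        intro p
        show Polynomial.aeval (algebraMap K₀ ℂ (α l)) p = _
        rw [Polynomial.aeval_algebraMap_apply]
        rfl
      exact
        { F := ℂ
          char := by norm_num
          red := evalAt K₀ (α l)
          general := hpos l
          ϖ := Polynomial.X - Polynomial.C (α l)
          red_ϖ := by
            rw [hev2, Polynomial.eval_sub, Polynomial.eval_X, Polynomial.eval_C, sub_self]
            rfl
          order := by
            intro i
            have hc0 : c i ≠ 0 := by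
              intro h0
              have := he.1 l i
              change 0 < (c i).rootMultiplicity (α l) at this
              rw [h0, Polynomial.rootMultiplicity_zero] at this
              exact lt_irrefl _ this
            obtain ⟨q, hq1, hq2⟩ :=
              Polynomial.exists_eq_pow_rootMultiplicity_mul_and_not_dvd (c i) hc0 (α l)
            refine ⟨1, q, ?_, ?_, ?_⟩
            · rw [map_one]
              exact one_ne_zero
            · rw [hev2]
              intro h1
              apply hq2
              rw [Polynomial.dvd_iff_isRoot, Polynomial.IsRoot.def]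
              exact Subtype.ext h1
            · rw [one_mul]
              conv_lhs => rw [hq1]
              ring }
  · intro K _ κ N n m G hG a b d ha hb hpos Γ hΓ
    obtain ⟨D, hD⟩ := mainScaled K G hG a b d ha hb hpos Γ hΓ
    refine ⟨D, fun c p hp he => hD c ⟨p, hp, he.1, he.cyc⟩, fun a' ha' H => ?_⟩
    refine (Set.ncard_le_ncard ?_ ((Set.finite_Icc 1 H).subset ?_)).trans
      (V11322.ZF.countF (n := n) (L := m + 2) (T := 1) D a' ha'.1 ha'.cyc H)
    · rintro k ⟨h1, h2, h3⟩
      refine ⟨h1, h2, fun h4 => h3 ?_⟩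
      exact hD _ h4
    · rintro k ⟨h1, h2, -⟩
      exact ⟨h1, h2⟩
  · intro n L e he hinj
    refine ⟨fun l i => (he l i).pos, ?_⟩
    intro U hU i j hij hev
    have h1 := V11322.ZF.cyc_of_primes (B := 1) e (fun l i => ⟨he l i, (he l i).one_lt⟩) hinj U hU
      i j (fun _ => 1) (fun l hl => ⟨hij l hl, Nat.one_pos, le_refl _⟩) hev
    simpa using h1

end Pool.Agent.Results.MP_dd1803_nt.WeierstrassFamilies
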